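import Pool.Agent.OMF.Stmts

set_option autoImplicit false

namespace Pool.Agent.OMF.H45

open Finset Pool.Agent.GTO
open scoped Classical

theorem ip_comb (w u v : V) (s t : ℝ) : ip w (s • u + t • v) = s * ip w u + t * ip w v := by
  unfold ip
  simp only [Pi.add_apply, Pi.smul_apply, smul_eq_mul]
  ring

theorem cr_comb (u v : V) (s t s' t' : ℝ) :
    cr (s • u + t • v) (s' • u + t' • v) = (s * t' - t * s') • cr u v := by
  unfold cr
  funext i
  fin_cases i <;> simp [Pi.add_apply, Pi.smul_apply, smul_eq_mul] <;> ring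

theorem ip_cr_left (u v : V) : ip (cr u v) u = 0 := by
  unfold ip cr
  simp
  ring

theorem ip_cr_right (u v : V) : ip (cr u v) v = 0 := by
  unfold ip cr
  simp
  ring

theorem ip_cr_dt (u v w : V) : ip (cr u v) w = dt u v w := by
  unfold ip cr dt
  simp
  ring

theorem lnq1 (lnf : LnfStmt) (e : Fin 6 → ℝ) (w p q r : V) (hn : NoLineQ e) (hw : w ≠ 0)
    (hp : ip w p = 0) (hq : ip w q = 0) (hr : ip w r = 0) (ep : quad e p = 0) (eq : quad e q = 0)
    (er : quad e r = 0) (hpq : cr p q ≠ 0) (hqr : cr q r ≠ 0) (hrp : cr r p ≠ 0) : False := by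
  have anti : ∀ u v : V, cr u v ≠ 0 → cr v u ≠ 0 := by
    intro u v h h2
    apply h
    have := cr_comb v u 0 1 1 0
    simp only [zero_smul, one_smul, zero_add, add_zero, h2, smul_zero] at this
    exact this
  obtain ⟨m, hm⟩ := lnf.2.1 e w ![p, q, r] hw
    (by
      intro i
      fin_cases i
      · exact ⟨hp, ep⟩
      · exact ⟨hq, eq⟩
      · exact ⟨hr, er⟩)
    (by
      intro i j hij
      fin_cases i <;> fin_cases j
      · exact absurd rfl hij
      · exact hpq
      · exact anti _ _ hrp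
      · exact anti _ _ hpq
      · exact absurd rfl hij
      · exact hqr
      · exact hrp
      · exact anti _ _ hqr
      · exact absurd rfl hij)
  obtain ⟨s, t, hst⟩ := hn p q hpq
  apply hst
  rw [hm, ip_comb, hp, hq]
  ring

/-- **LNQ**. -/
theorem lnq (_bas : BasStmt) (lnf : LnfStmt) : LnqStmt := by
  refine ⟨?_, ?_, ?_, ?_⟩
  · intro e w p q r hn hw hp hq hr ep eq er h1 h2 h3
    exact lnq1 lnf e w p q r hn hw hp hq hr ep eq er h1 h2 h3
  · intro ι _ a ha e hn i j k hij hjk hki hk hi hj hkq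
    simp only [Zq, ln, Finset.mem_filter, Finset.mem_univ, true_and] at hk hi hj hkq
    refine lnq1 lnf e (cr (a i) (a j)) (a i) (a j) (a k) hn (ha i j hij) (ip_cr_left _ _)
      (ip_cr_right _ _) ?_ hi hj hkq (ha i j hij) (ha j k hjk) (ha k i hki)
    rw [ip_cr_dt]; exact hk
  · intro c hc hn
    unfold NoLine at hn
    push Not at hn
    obtain ⟨u, v, huv, h⟩ := hn
    obtain ⟨e, he⟩ := lnf.1 c (cr u v)
      (fun i => (![1, 0, 1, 1] : Fin 4 → ℝ) i • u + (![0, 1, 1, -1] : Fin 4 → ℝ) i • v) huv
      (by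
        intro i
        refine ⟨?_, h _ _⟩
        rw [ip_comb, ip_cr_left, ip_cr_right]
        ring)
      (by
        intro i j hij
        rw [cr_comb]
        apply smul_ne_zero _ huv
        fin_cases i <;> fin_cases j <;> first | (exact absurd rfl hij) | (norm_num [Matrix.cons_val_two, Matrix.cons_val_three]))
    refine ⟨cr u v, e, huv, ?_, he⟩
    intro h0
    apply hc
    apply lnf.2.2.2.1 c
    intro x
    rw [he, h0]
    simp [quad]
  · intro e he hn
    unfold NoLineQ at hn
    push Not at hn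
    obtain ⟨u, v, huv, h⟩ := hn
    obtain ⟨m, hm⟩ := lnf.2.1 e (cr u v)
      (fun i => (![1, 0, 1] : Fin 3 → ℝ) i • u + (![0, 1, 1] : Fin 3 → ℝ) i • v) huv
      (by
        intro i
        refine ⟨?_, h _ _⟩
        rw [ip_comb, ip_cr_left, ip_cr_right]
        ring)
      (by
        intro i j hij
        rw [cr_comb]
        apply smul_ne_zero _ huv
        fin_cases i <;> fin_cases j <;> first | (exact absurd rfl hij) | (norm_num [Matrix.cons_val_two]))
    refine ⟨cr u v, m, huv, ?_, hm⟩
    intro h0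
    apply he
    apply lnf.2.2.2.2.1 e
    intro x
    rw [hm, h0]
    simp [ip]

end Pool.Agent.OMF.H45
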